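import Pool.Agent.N535.SB.Fin

/-!
# Continuity of the Sobolev averaging map on norm classes

Question (MP_d9e438_al, Q1): is `Φ : (s, [p]) ↦ [p_s^G]` continuous on `[0, ∞) × Norm(V, w)` for the
Sobolev pseudometric `d`?

Answer: yes, for every weight; even `d (Φ (s, p), Φ (s', q)) ≤ |s - s'| + d (p, q)`.

The setting (`Pool/Agent/N535/SB/Def.lean`): `G` is a topological group, `K` a compact subgroup,
`S : Glob G K` is the smooth globalization `V^∞` of the module `V` (in the coordinates of a basis
of `V` adapted to the `K`-isotypic components; `c_i` is the eigenvalue of the `K`-Laplacian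
`Δ_K = -∑ Y_j²`), i.e. the space of rapidly decreasing families with a continuous action of `G`.
For a real reductive group `G`, a maximal compact subgroup `K` and a Harish-Chandra module `V` such
a space exists and is unique (Casselman-Wallach), and the `G`-continuous norms on `V` with growth
`≲ w` are the continuous norms `p` on `V^∞` with `p(g x) ≤ C w(g) p(x)`, i.e. `NormW S w`.
`Dop s = (1 + Δ_K)^(s/2)`, `p.sob s` is the Sobolev norm `p_s`, `avg` is the infimum
defining `q^G` (over decompositions in `V^∞`; for `K`-finite vectors it is the infimum `avgK` over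
the decompositions in `V`), `dSob` is the Sobolev pseudometric `d` (with values in `[0, ∞]`).

Proof: with `A = 1 + Δ_K`, every `G`-continuous norm satisfies `p(A^α (t+A)^(-n) x) ≤ C (1+t)^(α-n)
p(x)` for `0 ≤ α ≤ n`, because `Δ_K` is dissipative for a `K`-invariant norm. If
`x = ∑ x_i`, `y_i = g_i x_i`, split `y_i` at the frequency `t` by the binomial formula for
`(A + t)^(2m) (t + A)^(-2m)`, transport the two halves back by `g_i^(-1)` and integrate
`(t + A)^(-m) x` over `t`: this gives `p_s^G ≲ (p_{s'}^G)_ν` for all `ν > s - s' ≥ 0`.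
-/

namespace Pool.Agent.Results.MP_d9e438_al.AveragingMapLipschitz

open scoped ENNReal NNReal
open Pool.Agent.N535.SB

theorem result {G : Type*} [Group G] [TopologicalSpace G] [IsTopologicalGroup G]
    (K : Subgroup G) (hK : IsCompact (K : Set G)) (S : Glob G K) (w : G → ℝ)
    (hw : IsWeight w) :
    ∃ Φ : ℝ≥0 → NormW S w → NormW S w,
      -- `Φ (s, p) = p_s^G`
      (∀ (s : ℝ≥0) (p : NormW S w) (x : S.D.E), (Φ s p).p x = avg S w (p.sob s) x) ∧
      (∀ (s : ℝ≥0) (p : NormW S w) (x : S.D.E), KFin x →
        (Φ s p).p x = avgK S w (p.sob s) x) ∧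
      -- `Φ` is Lipschitz with constant one
      (∀ (s s' : ℝ≥0) (p q : NormW S w),
        dSob (Φ s p) (Φ s' q) ≤ edist s s' + dSob p q) ∧
      -- so `Φ` is continuous
      (∀ (s : ℝ≥0) (p : NormW S w) (ε : ℝ≥0∞), 0 < ε → ∃ δ : ℝ≥0∞, 0 < δ ∧
        ∀ (s' : ℝ≥0) (q : NormW S w), edist s s' < δ → dSob p q < δ →
          dSob (Φ s p) (Φ s' q) < ε) :=
  ⟨Phi hK hw, Phi_apply hK hw, fun s p _ hx => Phi_apply_K hK hw s p hx,
    fun s s' p q => dSob_Phi hK hw p q s s', fun s p _ hε => cont_Phi hK hw p s hε⟩

end Pool.Agent.Results.MP_d9e438_al.AveragingMapLipschitz
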